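import Mathlib

namespace Pool.Agent.Results.MP_a09a4b_an.Mixed

open Set
open scoped ENNReal

/-- A pure searcher strategy is a map `s : List Bool → ℝ` giving the next guess from the list of answers so far
(oldest first, `true` = too high).  `hist s h n` is the list of the first `n` answers when the secret is `h`. -/
noncomputable def hist (s : List Bool → ℝ) (h : ℝ) : ℕ → List Bool
  | 0 => []
  | n + 1 => hist s h n ++ [decide (h < s (hist s h n))]

open Classical in
/-- The payoff `P(h)`: the sum of `|g_n - h|` over all guesses made; a guess is made iff no earlier guess hit `h`. -/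
noncomputable def cost (s : List Bool → ℝ) (h : ℝ) : ℝ≥0∞ :=
  ∑' n, if ∀ m < n, s (hist s h m) ≠ h then ENNReal.ofReal |s (hist s h n) - h| else 0

noncomputable def pc (s : List Bool → ℝ) (h : ℝ) (N : ℕ) : ℝ := ∑ n ∈ Finset.range N, |s (hist s h n) - h|

lemma hist_succ (s : List Bool → ℝ) (h : ℝ) (n : ℕ) :
    hist s h (n + 1) = decide (h < s []) :: hist (fun l => s (decide (h < s []) :: l)) h n := by
  induction n with
  | zero => rfl
  | succ n ih => rw [hist, ih]; rfl

lemma pc_succ (s : List Bool → ℝ) (h : ℝ) (N : ℕ) :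
    pc s h (N + 1) = |s [] - h| + pc (fun l => s (decide (h < s []) :: l)) h N := by
  simp only [pc, Finset.sum_range_succ', hist_succ]
  rw [add_comm]; rfl

lemma pc_mono (s : List Bool → ℝ) (h : ℝ) (N : ℕ) : pc s h N ≤ pc s h (N + 1) := by
  rw [pc, pc, Finset.sum_range_succ]
  exact le_add_of_nonneg_right (abs_nonneg _)

lemma cost_le {s : List Bool → ℝ} {h c : ℝ} (H : ∀ N, pc s h N ≤ c) : cost s h ≤ ENNReal.ofReal c := by
  refine ENNReal.tsum_le_of_sum_range_le fun N => le_trans ?_ (ENNReal.ofReal_le_ofReal (H N))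
  rw [pc, ENNReal.ofReal_sum_of_nonneg fun _ _ => abs_nonneg _]
  exact Finset.sum_le_sum fun n _ => by split_ifs <;> simp

lemma le_cost {s : List Bool → ℝ} {h : ℝ} (H : h ∉ range s) (N : ℕ) : ENNReal.ofReal (pc s h N) ≤ cost s h := by
  rw [pc, ENNReal.ofReal_sum_of_nonneg fun _ _ => abs_nonneg _, cost]
  refine le_trans (Finset.sum_le_sum fun n _ => ?_) (ENNReal.sum_le_tsum _)
  rw [if_pos fun m _ e => H ⟨_, e⟩]

def w : ℕ → ℤ → ℚ
  | 0, k => max k 0
  | d + 1, k => (1 + w d (k - 1)) * w d (k + 1) / (1 + w d (k - 1) - k + w d (k + 1))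

lemma w_ge (d : ℕ) (k : ℤ) : (k : ℚ) ≤ w d k ∧ 0 ≤ w d k := by
  induction d generalizing k with
  | zero => simp [w]
  | succ d ih =>
    obtain ⟨h1, h2⟩ := ih (k - 1)
    obtain ⟨h3, h4⟩ := ih (k + 1)
    push_cast at h1 h3
    have : 0 < 1 + w d (k - 1) - k + w d (k + 1) := by linarith
    rw [w]
    refine ⟨?_, by positivity⟩
    rw [le_div_iff₀ this]
    rcases le_total (k : ℚ) 0 with h | h <;> nlinarith

lemma lower {C : Set ℝ} (hC : Dense Cᶜ) (d : ℕ) : ∀ (s : List Bool → ℝ) (k : ℤ) (a b t : ℝ), a < b →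
    t < (b - a) * w d k → ∃ h ∈ Ioo a b, h ∉ C ∧ t < k * (h - a) + pc s h d := by
  induction d with
  | zero =>
    intro s k a b t hab ht
    have hU : IsOpen {h : ℝ | t < k * (h - a)} := isOpen_lt (by fun_prop) (by fun_prop)
    obtain ⟨x, hx, hx'⟩ : ∃ x ∈ closure (Ioo a b), t < k * (x - a) := by
      rw [closure_Ioo hab.ne]
      simp only [w] at ht
      rcases le_total k 0 with h | h
      · exact ⟨a, by simp [hab.le], by simpa [h] using ht⟩
      · exact ⟨b, by simp [hab.le], by simpa [h, mul_comm] using ht⟩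
    obtain ⟨h, h1, h2⟩ := hC.inter_open_nonempty _ (hU.inter isOpen_Ioo) (mem_closure_iff.1 hx _ hU hx')
    exact ⟨h, h1.2, h2, by simpa [pc] using h1.1⟩
  | succ d ih =>
    intro s k a b t hab ht
    obtain ⟨h1, h2⟩ := w_ge d (k - 1)
    obtain ⟨h3, h4⟩ := w_ge d (k + 1)
    have h1 : (k : ℝ) - 1 ≤ w d (k - 1) := by exact_mod_cast h1
    have h2 : (0 : ℝ) ≤ w d (k - 1) := by exact_mod_cast h2
    have h3 : (k : ℝ) + 1 ≤ w d (k + 1) := by exact_mod_cast h3
    have h4 : (0 : ℝ) ≤ w d (k + 1) := by exact_mod_cast h4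
    rw [w] at ht
    push_cast at ht
    have i1 := ih (fun l => s (true :: l)) (k - 1)
    have i2 := ih (fun l => s (false :: l)) (k + 1)
    generalize (w d (k - 1) : ℝ) = A at *
    generalize (w d (k + 1) : ℝ) = B at *
    have hD : 0 < 1 + A - k + B := by linarith
    rw [← mul_div_assoc, lt_div_iff₀ hD] at ht
    by_cases hc : a < s [] ∧ (b - a) * B ≤ (min (s []) b - a) * (1 + A - k + B)
    · have hg := lt_min hc.1 hab
      obtain ⟨h, m1, m2, m3⟩ := i1 a _ (t - (min (s []) b - a)) hg (lt_of_mul_lt_mul_right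
        (by nlinarith [mul_le_mul_of_nonneg_right hc.2 (show 0 ≤ 1 + A by linarith)]) hD.le)
      have e := m1.2.trans_le (min_le_left _ _)
      refine ⟨h, ⟨m1.1, m1.2.trans_le (min_le_right _ _)⟩, m2, ?_⟩
      rw [pc_succ, decide_eq_true e, abs_of_pos (by linarith)]
      push_cast at m3
      linarith [min_le_left (s []) b]
    · have hc' : max (s []) a < b ∧ (max (s []) a - a) * (1 + A - k + B) ≤ (b - a) * B := by
        rcases le_or_gt (s []) a with h | h
        · rw [max_eq_right h]; exact ⟨hab, by nlinarith⟩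
        · rw [max_eq_left h.le]
          have hc := not_le.1 (not_and.1 hc h)
          rcases le_or_gt b (s []) with h' | h'
          · rw [min_eq_right h'] at hc; nlinarith
          · rw [min_eq_left h'.le] at hc; exact ⟨h', hc.le⟩
      obtain ⟨h, m1, m2, m3⟩ := i2 _ b (t - k * (max (s []) a - a)) hc'.1 (lt_of_mul_lt_mul_right
        (by nlinarith [mul_le_mul_of_nonneg_right hc'.2 (show 0 ≤ B - k by linarith)]) hD.le)
      have e := (le_max_left _ _).trans_lt m1.1
      refine ⟨h, ⟨(le_max_right _ _).trans_lt m1.1, m1.2⟩, m2, ?_⟩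
      rw [pc_succ, decide_eq_false e.not_gt, abs_of_neg (by linarith)]
      push_cast at m3
      linarith [le_max_left (s []) a]

def u (k : ℤ) : ℚ := max k 0 + ([62454, 24908, 7767, 1911, 381].getD k.natAbs 64 : ℕ) / 100000

def γ (k : ℤ) : ℚ := u k / (1 + u (k - 1))

lemma u_spec (k : ℤ) : (k : ℚ) ≤ u k ∧ 0 ≤ u k ∧ 0 ≤ γ k ∧ γ k ≤ 1 ∧ γ k * (1 + u (k - 1)) ≤ u k ∧
    k * γ k + (1 - γ k) * u (k + 1) ≤ u k := by
  have e : ∀ k : ℤ, 5 ≤ k.natAbs → u k = max k 0 + 64 / 100000 := fun k hk => by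
    rw [u, List.getD_eq_default _ _ (by simpa using hk)]; norm_num
  rcases lt_or_ge k (-5) with h | h
  · have h' : (k : ℚ) < -5 := by exact_mod_cast h
    rw [γ, e k (by omega), e (k - 1) (by omega), e (k + 1) (by omega), max_eq_right (by omega),
      max_eq_right (by omega), max_eq_right (by omega)]
    norm_num
    constructor <;> linarith
  rcases lt_or_ge 5 k with h' | h'
  · have h' : (5 : ℚ) < k := by exact_mod_cast h'
    have : γ k = 1 := by
      rw [γ, e k (by omega), e (k - 1) (by omega), max_eq_left (by omega), max_eq_left (by omega),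
        div_eq_one_iff_eq (by push_cast; linarith)]
      push_cast; ring
    rw [this, e k (by omega), e (k - 1) (by omega), max_eq_left (by omega), max_eq_left (by omega)]
    push_cast
    refine ⟨?_, ?_, ?_, ?_, ?_, ?_⟩ <;> linarith
  interval_cases k <;> decide +kernel

inductive T
  | l
  | n (g : ℕ) (x y : T)

def X (g : ℕ) : ℚ := g / 60000

def gs : T → ℚ → ℚ → ℤ → ℚ
  | .l, a, b, k => a + γ k * (b - a)
  | .n g _ _, _, _, _ => X g

def ch : T → Bool → T
  | .l, _ => .l
  | .n _ x y, c => if c then x else y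

def play : List Bool → T → ℚ → ℚ → ℤ → ℚ
  | [], t, a, b, k => gs t a b k
  | true :: r, t, a, b, k => play r (ch t true) a (gs t a b k) (k - 1)
  | false :: r, t, a, b, k => play r (ch t false) (gs t a b k) b (k + 1)

def ok : T → ℚ → ℚ → Bool
  | .l, _, _ => true
  | .n g x y, a, b => decide (a ≤ X g) && decide (X g ≤ b) && ok x a (X g) && ok y (X g) b

def pk (lo hi : ℕ) : T → Bool
  | .l => true
  | .n g x y => if g ≤ lo then pk lo hi y else decide (hi ≤ g) && pk lo hi x

def V (lo : ℕ) : T → ℚ → ℚ → ℤ → ℚ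
  | .l, a, b, k => (b - a) * u k
  | .n g x y, a, b, k => if g ≤ lo then k * (X g - a) + V lo y (X g) b (k + 1) else X g - a + V lo x a (X g) (k - 1)

lemma play_mem (r : List Bool) : ∀ t a b k, a ≤ b → ok t a b → a ≤ play r t a b k ∧ play r t a b k ≤ b := by
  have e : ∀ t a b k, a ≤ b → ok t a b → a ≤ gs t a b k ∧ gs t a b k ≤ b ∧ ok (ch t true) a (gs t a b k) ∧
      ok (ch t false) (gs t a b k) b := by
    rintro (_ | ⟨g, x, y⟩) a b k hab h
    · obtain ⟨-, -, h1, h2, -⟩ := u_spec k
      exact ⟨by rw [gs]; nlinarith, by rw [gs]; nlinarith, rfl, rfl⟩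
    · simpa [ok, gs, ch, and_assoc] using h
  induction r with
  | nil => exact fun t a b k h1 h2 => ⟨(e t a b k h1 h2).1, (e t a b k h1 h2).2.1⟩
  | cons c r ih =>
    intro t a b k h1 h2
    obtain ⟨e1, e2, e3, e4⟩ := e t a b k h1 h2
    cases c
    · exact ⟨e1.trans (ih _ _ _ _ e2 e4).1, (ih _ _ _ _ e2 e4).2⟩
    · exact ⟨(ih _ _ _ _ e1 e3).1, (ih _ _ _ _ e1 e3).2.trans e2⟩

lemma tail (h : ℝ) (N : ℕ) : ∀ (a b : ℚ) (k : ℤ), a ≤ h → h ≤ b →
    k * (h - a) + pc (fun r => play r .l a b k) h N ≤ (b - a) * u k := by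
  induction N with
  | zero =>
    intro a b k h1 h2
    obtain ⟨u1, u2, -⟩ := u_spec k
    have u1 : (k : ℝ) ≤ u k := by exact_mod_cast u1
    have u2 : (0 : ℝ) ≤ u k := by exact_mod_cast u2
    simp only [pc, Finset.range_zero, Finset.sum_empty]
    nlinarith
  | succ N ih =>
    intro a b k h1 h2
    obtain ⟨-, -, -, -, u1, u2⟩ := u_spec k
    have u1 : (γ k : ℝ) * (1 + u (k - 1)) ≤ u k := by exact_mod_cast u1
    have u2 : (k : ℝ) * γ k + (1 - γ k) * u (k + 1) ≤ u k := by exact_mod_cast u2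
    rw [pc_succ]
    by_cases hc : h < play [] .l a b k
    · have := ih a _ (k - 1) h1 hc.le
      simp only [decide_eq_true hc, abs_of_pos (sub_pos.2 hc)]
      simp only [play, gs, ch] at this ⊢
      push_cast at this ⊢
      nlinarith
    · have := ih _ b (k + 1) (not_lt.1 hc) h2
      simp only [decide_eq_false hc, abs_of_nonpos (sub_nonpos.2 (not_lt.1 hc))]
      simp only [play, gs, ch] at this ⊢
      push_cast at this ⊢
      nlinarith

lemma upper {h : ℝ} {lo hi : ℕ} (h1 : X lo ≤ h) (h2 : h < X hi) (t : T) : ∀ (N : ℕ) (a b : ℚ) (k : ℤ), a ≤ h →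
    h ≤ b → pk lo hi t → k * (h - a) + pc (fun r => play r t a b k) h N ≤ V lo t a b k := by
  have hX : ∀ {x y : ℕ}, x ≤ y → (X x : ℝ) ≤ X y := fun h => by
    simp only [X]; push_cast; gcongr
  induction t with
  | l => intro N a b k ha hb _; simpa [V] using tail h N a b k ha hb
  | n g x y ihx ihy =>
    intro N a b k ha hb hp
    refine (add_le_add_right (pc_mono _ _ _) _).trans ?_
    rw [pc_succ]
    simp only [pk, V] at hp ⊢
    split_ifs at hp ⊢ with hg
    · have hc : (X g : ℝ) ≤ h := (hX hg).trans h1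
      have := ihy N _ b (k + 1) hc hb hp
      rw [decide_eq_false (p := h < (play [] (.n g x y) a b k : ℚ)) hc.not_gt]
      simp only [play, gs, abs_of_nonpos (sub_nonpos.2 hc), ch, Bool.false_eq_true, if_false]
      push_cast at this ⊢
      linarith
    · simp only [Bool.and_eq_true, decide_eq_true_eq] at hp
      have hc : h < X g := h2.trans_le (hX hp.1)
      have := ihx N a _ (k - 1) ha hc.le hp.2
      rw [decide_eq_true (p := h < (play [] (.n g x y) a b k : ℚ)) hc]
      simp only [play, gs, abs_of_pos (sub_pos.2 hc), ch, if_true]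
      push_cast at this ⊢
      linarith

def bld (l : List ℕ) : ℕ → ℕ → ℕ → T
  | 0, _, _ => .l
  | f + 1, a, b => match l.find? fun g => decide (a < g) && decide (g < b) with
    | none => .l
    | some g => .n g (bld l f a g) (bld l f g b)

def dat : List (ℕ × List ℕ) := [
  (32, [27000, 4500, 450, 40, 3000, 1500, 15000, 9000, 7500, 6000, 12000, 13500, 22500, 18000, 19500, 21000,
    25500, 24000, 49500, 34500, 30000, 28500, 31500, 33000, 43500, 37500, 36000, 40500, 42000, 46500, 45000,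
    48000, 58500, 55500, 52500, 51000, 54000, 57000, 59865, 59960]),
  (78, [30000, 6000, 450, 12, 135, 16500, 10500, 7500, 9000, 13500, 15000, 24000, 21000, 19500, 22500, 27000,
    28500, 54000, 43500, 36000, 33000, 31500, 39000, 37500, 40500, 49500, 46500, 45000, 52500, 51000, 59550,
    59988, 59865]),
  (34, [28500, 6000, 450, 40, 12, 135, 3000, 1500, 16500, 9000, 7500, 10500, 13500, 15000, 24000, 19500, 21000,
    27000, 52500, 37500, 31500, 30000, 34500, 33000, 36000, 48000, 43500, 42000, 40500, 39000, 46500, 51000,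
    59550, 57000, 54000, 55500, 58500, 59960, 59865, 59988]),
  (37, [27000, 3000, 450, 40, 12000, 7500, 4500, 9000, 10500, 21000, 18000, 13500, 15000, 16500, 19500, 24000,
    51000, 34500, 30000, 28500, 45000, 40500, 37500, 36000, 42000, 49500, 48000, 58500, 55500, 59865, 59550,
    59960]),
  (105, [28500, 4500, 450, 12, 40, 15000, 9000, 6000, 12000, 13500, 24000, 19500, 18000, 16500, 21000, 22500,
    27000, 52500, 39000, 31500, 30000, 34500, 33000, 36000, 48000, 45000, 42000, 40500, 46500, 51000, 58500,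
    55500, 57000, 59960, 59550, 59988]),
  (88, [27000, 4500, 135, 40, 1500, 450, 12000, 7500, 6000, 9000, 10500, 21000, 16500, 15000, 18000, 19500,
    24000, 22500, 25500, 51000, 36000, 31500, 28500, 30000, 43500, 39000, 37500, 42000, 48000, 45000, 58500,
    54000, 57000, 55500, 59865, 59550, 59960]),
  (32, [28500, 6000, 450, 40, 12, 15000, 10500, 9000, 7500, 12000, 13500, 22500, 18000, 16500, 21000, 25500,
    24000, 27000, 51000, 37500, 31500, 30000, 34500, 33000, 36000, 46500, 42000, 39000, 43500, 45000, 49500,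
    58500, 55500, 52500, 59865, 59550, 59960, 59988]),
  (39, [27000, 3000, 450, 12, 135, 1500, 15000, 9000, 6000, 4500, 7500, 10500, 12000, 13500, 22500, 19500,
    16500, 21000, 25500, 51000, 36000, 31500, 28500, 30000, 33000, 34500, 45000, 40500, 39000, 37500, 43500,
    49500, 59550, 57000, 54000, 52500, 55500, 58500, 59988, 59865]),
  (22, [30000, 6000, 19500, 12000, 9000, 7500, 16500, 15000, 13500, 18000, 27000, 24000, 22500, 21000, 28500,
    54000, 40500, 33000, 31500, 36000, 37500, 39000, 48000, 43500, 42000, 45000, 46500, 51000, 52500]),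
  (33, [30000, 7500, 1500, 40, 12, 450, 135, 4500, 19500, 10500, 9000, 13500, 12000, 16500, 18000, 25500,
    22500, 21000, 24000, 28500, 52500, 40500, 34500, 31500, 37500, 36000, 39000, 49500, 46500, 43500, 42000,
    48000, 51000, 58500, 55500, 59960, 59550, 59865, 59988])]

def wt (j : Fin 20) : ℚ := (dat.getD (j / 2) (0, [])).1 / 1000

def tr (j : Fin 20) : T :=
  bld ((dat.getD (j / 2) (0, [])).2.map fun g => if j.1 % 2 = 0 then g else 60000 - g) 10 0 60000

def Y (i : ℕ) : ℕ := if i < 5 then [0, 12, 40, 135, 450].getD i 0 else if i < 44 then 1500 * (i - 4) else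
  [59550, 59865, 59960, 59988, 60000].getD (i - 44) 70000

lemma check : ∑ j, wt j = 1 ∧ (∀ j, 0 ≤ wt j ∧ ok (tr j) 0 1) ∧ ∀ i < 49, (∀ j, pk (Y i) (Y (i + 1)) (tr j)) ∧
    ∑ j, wt j * V (Y i) (tr j) 0 1 0 ≤ 623 / 1000 := by decide +kernel

lemma cell {f : ℕ → ℝ} {h : ℝ} (h0 : f 0 ≤ h) (n : ℕ) (hn : h < f n) : ∃ i < n, f i ≤ h ∧ h < f (i + 1) := by
  induction n with
  | zero => linarith
  | succ n ih =>
    rcases le_or_gt (f n) h with h1 | h1
    · exact ⟨n, by omega, h1, hn⟩
    · obtain ⟨i, hi, h⟩ := ih h1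
      exact ⟨i, by omega, h⟩

/-- A finitely supported mixed searcher strategy has expected cost at most `0.623` against every secret, while
every pure strategy costs more than `0.623` against some secret that is not one of its guesses. -/
theorem result : ∃ (m : ℕ) (p : Fin m → ℝ≥0∞) (σ : Fin m → List Bool → ℝ), ∑ i, p i = 1 ∧
    (∀ i l, σ i l ∈ Icc (0 : ℝ) 1) ∧ (∀ h ∈ Icc (0 : ℝ) 1, ∑ i, p i * cost (σ i) h ≤ 623 / 1000) ∧
    ∀ s : List Bool → ℝ, ∃ h ∈ Icc (0 : ℝ) 1, h ∉ range s ∧ 623 / 1000 < cost s h := by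
  obtain ⟨c1, c2, c3⟩ := check
  have c0 : ∀ j, (0 : ℝ) ≤ wt j := fun j => by exact_mod_cast (c2 j).1
  have e : (623 / 1000 : ℝ≥0∞) = ENNReal.ofReal (623 / 1000) := by
    rw [ENNReal.ofReal_div_of_pos (by norm_num)]; simp
  refine ⟨20, fun j => ENNReal.ofReal (wt j), fun j r => play r (tr j) 0 1 0, ?_, fun j r => ?_,
    fun h hh => ?_, fun s => ?_⟩
  · rw [← ENNReal.ofReal_sum_of_nonneg fun j _ => c0 j, ← Rat.cast_sum, c1]; simp
  · have := play_mem r _ 0 1 0 zero_le_one (c2 j).2
    dsimp only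
    exact ⟨by exact_mod_cast this.1, by exact_mod_cast this.2⟩
  · obtain ⟨i, hi, h1, h2⟩ := cell (f := fun i => X (Y i)) (h := h) (by simpa [X, Y] using hh.1) 49
      (by simp [X, Y]; linarith [hh.2])
    have hu := fun j N => upper h1 h2 (tr j) N 0 1 0 (by simpa using hh.1) (by simpa using hh.2) ((c3 i hi).1 j)
    simp only [Int.cast_zero, zero_mul, zero_add] at hu
    refine (Finset.sum_le_sum fun j _ => mul_le_mul_right (cost_le (hu j)) _).trans ?_
    simp only [← ENNReal.ofReal_mul (c0 _)]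
    rw [← ENNReal.ofReal_sum_of_nonneg fun j _ => mul_nonneg (c0 j) (by simpa [pc] using hu j 0), e]
    exact ENNReal.ofReal_le_ofReal (by simpa using (Rat.cast_le (K := ℝ)).2 (c3 i hi).2)
  · obtain ⟨h, h1, h2, h3⟩ := lower ((countable_range s).dense_compl ℝ) 7 s 0 0 1 (623 / 1000) one_pos (by
      have : (623 / 1000 : ℚ) < w 7 0 := by decide +kernel
      simpa using (Rat.cast_lt (K := ℝ)).2 this)
    refine ⟨h, Ioo_subset_Icc_self h1, h2, lt_of_lt_of_le ?_ (le_cost h2 7)⟩
    rw [e]
    exact (ENNReal.ofReal_lt_ofReal_iff_of_nonneg (by norm_num)).2 (by simpa using h3)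

end Pool.Agent.Results.MP_a09a4b_an.Mixed
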